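import Mathlib

/-!
# `φ(k²+1) = k φ(k+1)` with `k²+1` having at most two distinct prime factors

If moreover `k ≠ 8`, then `k+1` and `k²+1` are both prime.
-/

set_option autoImplicit false

namespace Pool.Agent.Lib.MP_9310ca_nt.TwoPrimes

open Nat

/-- The multiples of a prime factor `p` of `n = p m` are not counted by the totient. -/
lemma mult_bound {n p m : ℕ} (hpp : p.Prime) (hm : n = p * m) : m ≤ n - φ n := by
  have hp0 : 0 < p := hpp.pos
  have h1 : φ n ≤ n - m := by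
    rw [Nat.totient_eq_card_coprime]
    have hsub : (Finset.range n).filter (fun a => n.Coprime a) ⊆
        (Finset.range n) \ ((Finset.range m).image (fun i => p * i)) := by
      intro a ha
      rw [Finset.mem_filter, Finset.mem_range] at ha
      rw [Finset.mem_sdiff, Finset.mem_range]
      refine ⟨ha.1, ?_⟩
      intro hmem
      rw [Finset.mem_image] at hmem
      obtain ⟨i, _, rfl⟩ := hmem
      have h3 : p ∣ Nat.gcd n (p * i) := Nat.dvd_gcd ⟨m, hm⟩ (dvd_mul_right p i)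
      rw [ha.2] at h3
      exact hpp.one_lt.ne' (Nat.dvd_one.mp h3)
    refine (Finset.card_le_card hsub).trans ?_
    have hinj : Function.Injective (fun i => p * i) := fun a b hab =>
      Nat.eq_of_mul_eq_mul_left hp0 hab
    have himg : (Finset.range m).image (fun i => p * i) ⊆ Finset.range n := by
      intro a ha
      rw [Finset.mem_image] at ha
      obtain ⟨i, hi, rfl⟩ := ha
      rw [Finset.mem_range] at hi ⊢
      rw [hm]
      exact Nat.mul_lt_mul_of_pos_left hi hp0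
    rw [Finset.card_sdiff_of_subset himg, Finset.card_range,
      Finset.card_image_of_injective _ hinj, Finset.card_range]
  have h4 : m ≤ n := by rw [hm]; exact Nat.le_mul_of_pos_left m hp0
  omega

/-- A composite `n` satisfies `n ≤ (n - φ n)²`. -/
lemma composite_bound {n : ℕ} (h2 : 2 ≤ n) (hn : ¬ n.Prime) :
    n ≤ (n - φ n) ^ 2 := by
  set p := n.minFac with hp
  have hpp : p.Prime := Nat.minFac_prime (by omega)
  have hpn : p ∣ n := Nat.minFac_dvd n
  have hp2 : p * p ≤ n := by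
    have := Nat.minFac_sq_le_self (by omega) hn
    rwa [sq] at this
  obtain ⟨m, hm⟩ := hpn
  have hp0 : 0 < p := hpp.pos
  have hpm : p ≤ m := by
    rw [hm] at hp2
    exact Nat.le_of_mul_le_mul_left hp2 hp0
  have hcard : m ≤ n - φ n := mult_bound hpp hm
  calc n = p * m := hm
    _ ≤ m * m := Nat.mul_le_mul_right m hpm
    _ = m ^ 2 := (sq m).symm
    _ ≤ (n - φ n) ^ 2 := Nat.pow_le_pow_left hcard 2

/-- If all prime factors of `N` are `1` modulo `l`, then so is `N`. -/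
lemma modEq_one (l : ℕ) (N : ℕ) : N ≠ 0 → (∀ r : ℕ, r.Prime → r ∣ N → r ≡ 1 [MOD l]) →
    N ≡ 1 [MOD l] := by
  induction N using induction_on_primes with
  | zero => intro h; exact absurd rfl h
  | one => intro _ _; exact Nat.ModEq.refl 1
  | prime_mul r a hr ih =>
    intro h0 h
    have ha : a ≠ 0 := right_ne_zero_of_mul h0
    have h1 := h r hr (dvd_mul_right r a)
    have h2 := ih ha (fun s hs hsa => h s hs (hsa.trans (dvd_mul_left a r)))
    simpa using h1.mul h2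

/-- If a power of an odd prime `l` divides `φ N`, and `l` divides neither `N` nor `N - 1`, then
`N ≥ r (2 l ^ m + 1)` for some prime factor `r` of `N`. -/
lemma big_of_pow_dvd {l m N : ℕ} (hl : l.Prime) (hl2 : l ≠ 2) (hm : m ≠ 0) (hN : 2 ≤ N)
    (h1 : ¬ l ∣ N) (h2 : ¬ N ≡ 1 [MOD l]) (h3 : l ^ m ∣ φ N) :
    ∃ r : ℕ, r.Prime ∧ r ∣ N ∧ r * (2 * l ^ m + 1) ≤ N := by
  have hl3 : 3 ≤ l := by
    have := hl.two_le
    omega
  obtain ⟨r, hr, hrN, hr1⟩ : ∃ r : ℕ, r.Prime ∧ r ∣ N ∧ ¬ r ≡ 1 [MOD l] := by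
    by_contra hcon
    push Not at hcon
    exact h2 (modEq_one l N (by omega) hcon)
  refine ⟨r, hr, hrN, ?_⟩
  obtain ⟨j, N', hN', hj⟩ := Nat.exists_eq_pow_mul_and_not_dvd (n := N) (by omega) r hr.ne_one
  have hj0 : j ≠ 0 := by
    rintro rfl
    rw [pow_zero, one_mul] at hj
    exact hN' (hj ▸ hrN)
  have hN'0 : N' ≠ 0 := by
    rintro rfl
    exact hN' (dvd_zero r)
  have hcop : Nat.Coprime (r ^ j) N' := (Nat.Prime.coprime_pow_of_not_dvd hr hN').symm
  have hφ : φ N = r ^ (j - 1) * (r - 1) * φ N' := by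
    rw [hj, Nat.totient_mul hcop, Nat.totient_prime_pow hr (Nat.pos_of_ne_zero hj0)]
  have hlr : ¬ l ∣ r := fun h => h1 (h.trans hrN)
  have hlr1 : ¬ l ∣ r - 1 := by
    intro h
    exact hr1 ((Nat.modEq_iff_dvd' hr.one_lt.le).mpr h).symm
  have hcl : Nat.Coprime (l ^ m) (r ^ (j - 1) * (r - 1)) := by
    apply Nat.Coprime.pow_left
    apply Nat.Coprime.mul_right
    · exact Nat.Coprime.pow_right _ ((Nat.Prime.coprime_iff_not_dvd hl).mpr hlr)
    · exact (Nat.Prime.coprime_iff_not_dvd hl).mpr hlr1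
  have hd : l ^ m ∣ φ N' := by
    rw [hφ] at h3
    exact hcl.dvd_of_dvd_mul_left h3
  have hpos : 0 < φ N' := Nat.totient_pos.mpr (Nat.pos_of_ne_zero hN'0)
  have hlm : 3 ≤ l ^ m := hl3.trans (Nat.le_self_pow hm l)
  have hle : l ^ m ≤ φ N' := Nat.le_of_dvd hpos hd
  have hN'2 : 2 < N' := by
    have := Nat.totient_le N'
    omega
  have heven : 2 ∣ φ N' := (Nat.totient_even hN'2).two_dvd
  have hc2 : Nat.Coprime 2 (l ^ m) := by
    apply Nat.Coprime.pow_right
    exact (Nat.coprime_primes Nat.prime_two hl).mpr (Ne.symm hl2)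
  have hd2 : 2 * l ^ m ∣ φ N' := hc2.mul_dvd_of_dvd_of_dvd heven hd
  have hle2 : 2 * l ^ m ≤ φ N' := Nat.le_of_dvd hpos hd2
  have hlt : φ N' < N' := Nat.totient_lt N' (by omega)
  calc r * (2 * l ^ m + 1) ≤ r * N' := Nat.mul_le_mul_left r (by omega)
    _ ≤ r ^ j * N' := Nat.mul_le_mul_right N' (Nat.le_self_pow hj0 r)
    _ = N := hj.symm

/-- The basic identities and inequalities; `p = v + 1`, `q = u + 1`. -/
lemma basic (k v u w f : ℕ) (hf : f = φ (k + 1)) (hv : 1 ≤ v) (huv : v < u) (hw : 1 ≤ w)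
    (hn : k ^ 2 + 1 = w * ((v + 1) * (u + 1))) (hφ : w * (v * u) = k * f) :
    ∃ t c : ℕ, k = f + t ∧ 1 ≤ t ∧ v * t ≤ 2 * f ∧ k + 1 ≤ (t + 1) ^ 2 ∧ 0 < c ∧
      v * t = f + c ∧ w * (v * (v + 1)) = k * c + v := by
  have hk1 : 1 ≤ k := by
    rcases Nat.eq_zero_or_pos k with h | h
    · subst h
      have h1 : 1 ≤ w * (v * u) := Nat.mul_pos hw (Nat.mul_pos hv (by omega))
      omega
    · exact h
  have hfk : f ≤ k := by
    have := Nat.totient_lt (k + 1) (by omega)
    omega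
  obtain ⟨t, ht⟩ : ∃ t, k = f + t := ⟨k - f, by omega⟩
  have hsum : w * (u + v + 1) = k * t + 1 := by
    have h1 : w * ((v + 1) * (u + 1)) = w * (v * u) + w * (u + v + 1) := by ring
    have h2 : k ^ 2 = k * f + k * t := by
      have : k ^ 2 = k * k := sq k
      rw [this]
      nth_rewrite 2 [ht]
      ring
    rw [h1, hφ, h2] at hn
    omega
  have ht1 : 1 ≤ t := by
    rcases Nat.eq_zero_or_pos t with h | h
    · rw [h, Nat.mul_zero] at hsum
      have : 1 * (u + v + 1) ≤ w * (u + v + 1) := Nat.mul_le_mul_right _ hw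
      omega
    · exact h
  have hnp : ¬ (k + 1).Prime := by
    intro hpr
    have := Nat.totient_prime hpr
    rw [← hf] at this
    omega
  have hbound : k + 1 ≤ (t + 1) ^ 2 := by
    have h1 := composite_bound (by omega) hnp
    rw [← hf] at h1
    have : k + 1 - f = t + 1 := by omega
    rwa [this] at h1
  have hvt : v * t ≤ 2 * f := by
    have h1 : k * (v * t) + v ≤ k * (2 * f) := by
      calc k * (v * t) + v = v * (k * t + 1) := by ring
        _ = v * (w * (u + v + 1)) := by rw [hsum]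
        _ ≤ v * (w * (2 * u)) := by
            apply Nat.mul_le_mul_left
            apply Nat.mul_le_mul_left
            omega
        _ = 2 * (w * (v * u)) := by ring
        _ = k * (2 * f) := by rw [hφ]; ring
    exact Nat.le_of_mul_le_mul_left (by omega : k * (v * t) ≤ k * (2 * f)) hk1
  have hid : w * (v * (v + 1)) + k * f = k * (v * t) + v := by
    calc w * (v * (v + 1)) + k * f = w * (v * (v + 1)) + w * (v * u) := by rw [hφ]
      _ = v * (w * (u + v + 1)) := by ring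
      _ = v * (k * t + 1) := by rw [hsum]
      _ = k * (v * t) + v := by ring
  have hgt : v < w * (v * (v + 1)) := by
    calc v < v * (v + 1) := by nlinarith
      _ = 1 * (v * (v + 1)) := by ring
      _ ≤ w * (v * (v + 1)) := Nat.mul_le_mul_right _ hw
  have hfvt : f < v * t := by
    have : k * f < k * (v * t) := by omega
    exact Nat.lt_of_mul_lt_mul_left this
  refine ⟨t, v * t - f, ht, ht1, hvt, hbound, by omega, by omega, ?_⟩
  obtain ⟨c, hc⟩ : ∃ c, v * t = f + c := ⟨v * t - f, by omega⟩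
  rw [hc] at hid ⊢
  have h5 : k * (f + c) = k * f + k * c := by ring
  rw [Nat.add_sub_cancel_left]
  omega

/-- Every prime factor `r` of `k + 1` satisfies `p - 1 ≤ 2 r`. -/
lemma r_bound {k v f t r : ℕ} (hf : f = φ (k + 1)) (hk : k = f + t) (ht1 : 1 ≤ t)
    (hvt : v * t ≤ 2 * f) (hb : k + 1 ≤ (t + 1) ^ 2) (hr : r.Prime) (hrk : r ∣ k + 1) :
    v ≤ 2 * r := by
  obtain ⟨m, hm⟩ := hrk
  have h1 : m ≤ t + 1 := by
    have := mult_bound hr hm
    rw [← hf] at this
    omega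
  have h2 : k + 1 ≤ r * (t + 1) := by
    rw [hm]; exact Nat.mul_le_mul_left r h1
  -- `v ≤ 2 (t + 1)`
  have h3 : v ≤ 2 * (t + 1) := by
    have h4 : t * v ≤ t * (2 * (t + 1)) := by
      have h5 : (t + 1) ^ 2 = t * (t + 1) + t + 1 := by ring
      have h6 : t * (2 * (t + 1)) = 2 * (t * (t + 1)) := by ring
      have h7 : t * v = v * t := Nat.mul_comm t v
      omega
    exact Nat.le_of_mul_le_mul_left h4 ht1
  have h8 : (t + 1) * v ≤ (t + 1) * (2 * r) := by
    have h9 : (t + 1) * v = v * t + v := by ring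
    have h10 : (t + 1) * (2 * r) = 2 * (r * (t + 1)) := by ring
    omega
  exact Nat.le_of_mul_le_mul_left h8 (by omega)

/-- `p w` divides `c² + (p - 1)²`. -/
lemma dvd_sum {k v u w c : ℕ} (hn : k ^ 2 + 1 = w * ((v + 1) * (u + 1)))
    (hc : w * (v * (v + 1)) = k * c + v) : (v + 1) * w ∣ c ^ 2 + v ^ 2 := by
  have h1 : ((v : ℤ) + 1) * w ∣ (c : ℤ) ^ 2 + (v : ℤ) ^ 2 := by
    have hn' : (k : ℤ) ^ 2 + 1 = w * ((v + 1) * (u + 1)) := by exact_mod_cast hn
    have hc' : (w : ℤ) * (v * (v + 1)) = k * c + v := by exact_mod_cast hc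
    refine ⟨(c : ℤ) ^ 2 * (u + 1) - v * (k * c - v), ?_⟩
    linear_combination (c : ℤ) ^ 2 * hn' + (k * c - v) * hc'
  exact_mod_cast h1


/-- `w` is prime to `k`, so it divides `φ (k + 1)`. -/
lemma w_dvd {k v u w f : ℕ} (hn : k ^ 2 + 1 = w * ((v + 1) * (u + 1)))
    (hφ : w * (v * u) = k * f) : w ∣ f := by
  have hcop : Nat.Coprime w k := by
    have h1 : Nat.gcd w k ∣ k ^ 2 + 1 := by
      rw [hn]; exact (Nat.gcd_dvd_left w k).trans (dvd_mul_right _ _)
    have h2 : Nat.gcd w k ∣ k ^ 2 := (Nat.gcd_dvd_right w k).trans (dvd_pow_self k two_ne_zero)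
    exact Nat.dvd_one.mp ((Nat.dvd_add_right h2).mp h1)
  exact hcop.dvd_of_dvd_mul_left ⟨v * u, hφ.symm⟩

/-- `k² ((v + 1) w - v²) < v² ((v + 1) w)²`. -/
lemma key_ineq {k v u w c : ℕ} (hv : 1 ≤ v) (hc0 : 0 < c)
    (hn : k ^ 2 + 1 = w * ((v + 1) * (u + 1)))
    (hc : w * (v * (v + 1)) = k * c + v) :
    k ^ 2 * ((v + 1) * w) < v ^ 2 * ((v + 1) * w) ^ 2 + k ^ 2 * v ^ 2 := by
  have h1 : (v + 1) * w ≤ c ^ 2 + v ^ 2 :=
    Nat.le_of_dvd (by positivity) (dvd_sum hn hc)
  have h2 : k * c < v * ((v + 1) * w) := by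
    have : v * ((v + 1) * w) = w * (v * (v + 1)) := by ring
    omega
  have h3 : (k * c) ^ 2 < (v * ((v + 1) * w)) ^ 2 := Nat.pow_lt_pow_left h2 two_ne_zero
  calc k ^ 2 * ((v + 1) * w) ≤ k ^ 2 * (c ^ 2 + v ^ 2) := Nat.mul_le_mul_left _ h1
    _ = (k * c) ^ 2 + k ^ 2 * v ^ 2 := by ring
    _ < (v * ((v + 1) * w)) ^ 2 + k ^ 2 * v ^ 2 := by omega
    _ = v ^ 2 * ((v + 1) * w) ^ 2 + k ^ 2 * v ^ 2 := by ring

/-- If `w ≤ k` and `v² ≤ w` then `w < v (v + 1)²`. -/
lemma w_small {k v u w c : ℕ} (hv : 1 ≤ v) (hc0 : 0 < c)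
    (hn : k ^ 2 + 1 = w * ((v + 1) * (u + 1)))
    (hc : w * (v * (v + 1)) = k * c + v) (hwk : w ≤ k) (hvw : v ^ 2 ≤ w) :
    w < v * (v + 1) ^ 2 := by
  have h1 := key_ineq hv hc0 hn hc
  -- `k² v w ≤ k² ((v + 1) w - v²)`
  have h2 : k ^ 2 * (v * w) < v ^ 2 * ((v + 1) * w) ^ 2 := by
    have h3 : k ^ 2 * v ^ 2 ≤ k ^ 2 * w := Nat.mul_le_mul_left _ hvw
    have h4 : k ^ 2 * ((v + 1) * w) = k ^ 2 * (v * w) + k ^ 2 * w := by ring
    omega
  have h5 : (v * w) * k ^ 2 < (v * w) * (v * (v + 1) ^ 2 * w) := by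
    calc (v * w) * k ^ 2 = k ^ 2 * (v * w) := by ring
      _ < v ^ 2 * ((v + 1) * w) ^ 2 := h2
      _ = (v * w) * (v * (v + 1) ^ 2 * w) := by ring
  have h6 : k ^ 2 < v * (v + 1) ^ 2 * w := Nat.lt_of_mul_lt_mul_left h5
  have h7 : w * w ≤ k ^ 2 := by
    rw [sq]; exact Nat.mul_le_mul hwk hwk
  have h8 : w * w < w * (v * (v + 1) ^ 2) := by
    calc w * w ≤ k ^ 2 := h7
      _ < v * (v + 1) ^ 2 * w := h6
      _ = w * (v * (v + 1) ^ 2) := by ring
  exact Nat.lt_of_mul_lt_mul_left h8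

/-- If `k ≥ v w` then `(v + 1) w < (v + 1)² + v²`. -/
lemma w_tiny {k v u w c : ℕ} (hv : 1 ≤ v) (hc0 : 0 < c)
    (hn : k ^ 2 + 1 = w * ((v + 1) * (u + 1)))
    (hc : w * (v * (v + 1)) = k * c + v) (hwk : v * w ≤ k) :
    (v + 1) * w < (v + 1) ^ 2 + v ^ 2 := by
  by_contra hcon
  push Not at hcon
  have h1 := key_ineq hv hc0 hn hc
  obtain ⟨s, hs⟩ : ∃ s, (v + 1) * w = s + v ^ 2 := ⟨(v + 1) * w - v ^ 2, by omega⟩
  have hs1 : (v + 1) ^ 2 ≤ s := by omega
  have h2 : k ^ 2 * s < v ^ 2 * ((v + 1) * w) ^ 2 := by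
    rw [hs] at h1
    have h3 : k ^ 2 * (s + v ^ 2) = k ^ 2 * s + k ^ 2 * v ^ 2 := by ring
    rw [← hs] at h1
    rw [hs, h3] at h1
    rw [← hs] at h1
    omega
  have h4 : (v * w) ^ 2 * (v + 1) ^ 2 ≤ k ^ 2 * s :=
    Nat.mul_le_mul (Nat.pow_le_pow_left hwk 2) hs1
  have h5 : (v * w) ^ 2 * (v + 1) ^ 2 = v ^ 2 * ((v + 1) * w) ^ 2 := by ring
  omega

/-- If `w` is a power of an odd prime which divides `k ^ 2 + 1`, then `k ≥ (p - 1) w`. -/
lemma k_big {k v t w f l m : ℕ} (hf : f = φ (k + 1)) (hk : k = f + t) (ht1 : 1 ≤ t)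
    (hvt : v * t ≤ 2 * f) (hb : k + 1 ≤ (t + 1) ^ 2) (hv : 2 ≤ v)
    (hl : l.Prime) (hl2 : l ≠ 2) (hlk : l ∣ k ^ 2 + 1) (hm : m ≠ 0) (hw : w = l ^ m)
    (hwf : w ∣ f) : v * w ≤ k := by
  have h1 : ¬ l ∣ k := by
    intro h
    have : l ∣ 1 := (Nat.dvd_add_right (h.trans (dvd_pow_self k two_ne_zero))).mp hlk
    exact hl.one_lt.ne' (Nat.dvd_one.mp this)
  have h2 : ¬ l ∣ k + 1 := by
    intro h
    have h3 : l ∣ (k + 1) ^ 2 := h.trans (dvd_pow_self _ two_ne_zero)
    have h4 : (k + 1) ^ 2 = (k ^ 2 + 1) + 2 * k := by ring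
    rw [h4] at h3
    have h5 : l ∣ 2 * k := (Nat.dvd_add_right hlk).mp h3
    rcases (Nat.Prime.dvd_mul hl).mp h5 with h6 | h6
    · exact hl2 ((Nat.prime_dvd_prime_iff_eq hl Nat.prime_two).mp h6)
    · exact h1 h6
  have h3 : ¬ k + 1 ≡ 1 [MOD l] := by
    intro h
    have := (Nat.modEq_iff_dvd' (by omega : 1 ≤ k + 1)).mp h.symm
    exact h1 (by simpa using this)
  have h4 : l ^ m ∣ φ (k + 1) := by rw [← hf, ← hw]; exact hwf
  obtain ⟨r, hr, hrk, hle⟩ := big_of_pow_dvd hl hl2 hm (by omega) h2 h3 h4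
  have h5 := r_bound hf hk ht1 hvt hb hr hrk
  rw [← hw] at hle
  have h6 : v * (2 * w + 1) ≤ 2 * (k + 1) := by
    calc v * (2 * w + 1) ≤ 2 * r * (2 * w + 1) := Nat.mul_le_mul_right _ h5
      _ = 2 * (r * (2 * w + 1)) := by ring
      _ ≤ 2 * (k + 1) := Nat.mul_le_mul_left 2 hle
  have h7 : v * (2 * w + 1) = 2 * (v * w) + v := by ring
  omega

set_option maxRecDepth 100000 in
lemma finite_check : ∀ c < 13, ∀ v < 146, (0 < c ∧ (c ^ 2 + 1) % (v + 1) = 0 ∧
    3 ≤ v ^ 2 / c ∧ v ^ 2 % c = 0 ∧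
    v ^ 2 / c ≤ ((v ^ 2 / c + c) / (v + 1)) ^ 2 + 2 * ((v ^ 2 / c + c) / (v + 1))) →
    v ^ 2 / c = 8 := by
  decide

lemma aux (k p q : ℕ) (hp : p.Prime) (hq : q.Prime) (hlt : p < q) (hpq : k ^ 2 + 1 = p * q)
    (hk : φ (k ^ 2 + 1) = k * φ (k + 1)) : k = 8 := by
  obtain ⟨v, rfl⟩ : ∃ v, p = v + 1 := ⟨p - 1, by have := hp.pos; omega⟩
  obtain ⟨u, rfl⟩ : ∃ u, q = u + 1 := ⟨q - 1, by have := hq.pos; omega⟩
  have hv1 : 1 ≤ v := by have := hp.two_le; omega
  have huv : v < u := by omega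
  have hk3 : 3 ≤ k := by
    by_contra hcon
    have h1 : k ^ 2 ≤ 2 ^ 2 := Nat.pow_le_pow_left (by omega) 2
    have h2 : 2 * 3 ≤ (v + 1) * (u + 1) := Nat.mul_le_mul (by omega) (by omega)
    omega
  have hcop : Nat.Coprime (v + 1) (u + 1) := (Nat.coprime_primes hp hq).mpr (by omega)
  have hphi : v * u = k * φ (k + 1) := by
    rw [← hk, hpq, Nat.totient_mul hcop, Nat.totient_prime hp, Nat.totient_prime hq]
    simp
  set f := φ (k + 1) with hf
  have hfk : f ≤ k := by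
    have := Nat.totient_lt (k + 1) (by omega)
    omega
  obtain ⟨t, ht⟩ : ∃ t, k = f + t := ⟨k - f, by omega⟩
  have hsum : u + v = k * t := by
    have h1 : (v + 1) * (u + 1) = v * u + (u + v) + 1 := by ring
    have h2 : k ^ 2 = k * f + k * t := by
      have : k ^ 2 = k * k := sq k
      rw [this]
      nth_rewrite 2 [ht]
      ring
    rw [h1, hphi, h2] at hpq
    omega
  have ht1 : 1 ≤ t := by
    rcases Nat.eq_zero_or_pos t with h | h
    · rw [h, Nat.mul_zero] at hsum; omega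
    · exact h
  have hnp : ¬ (k + 1).Prime := by
    intro hpr
    have := Nat.totient_prime hpr
    rw [← hf] at this
    omega
  have hbound : k + 1 ≤ (t + 1) ^ 2 := by
    have h1 := composite_bound (by omega) hnp
    rw [← hf] at h1
    have : k + 1 - f = t + 1 := by omega
    rwa [this] at h1
  have hkt : k ≤ t ^ 2 + 2 * t := by
    have : (t + 1) ^ 2 = t ^ 2 + 2 * t + 1 := by ring
    omega
  -- `v² = k c`
  have hc' : v ^ 2 + k * f = k * (v * t) := by
    calc v ^ 2 + k * f = v * (u + v) := by rw [← hphi]; ring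
      _ = k * (v * t) := by rw [hsum]; ring
  have hfvt : f ≤ v * t := by
    have : k * f ≤ k * (v * t) := by omega
    exact Nat.le_of_mul_le_mul_left this (by omega)
  obtain ⟨c, hc⟩ : ∃ c, v * t = f + c := ⟨v * t - f, by omega⟩
  have hvc : v ^ 2 = k * c := by
    rw [hc] at hc'
    have : k * (f + c) = k * f + k * c := by ring
    omega
  have hc0 : 0 < c := by
    rcases Nat.eq_zero_or_pos c with h | h
    · rw [h, Nat.mul_zero] at hvc
      have : v = 0 := by simpa using hvc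
      omega
    · exact h
  -- `t (v+1) = k + c`
  have htv : t * (v + 1) = k + c := by
    have : t * (v + 1) = v * t + t := by ring
    omega
  -- bound on `c`
  have hvt : v * t ≤ 2 * k := by
    -- `v * (k t) ≤ 2 u v = 2 k f`
    have h1 : v * (k * t) ≤ v * (2 * u) := by
      rw [← hsum]
      exact Nat.mul_le_mul_left v (by omega)
    have h2 : v * (2 * u) = k * (2 * f) := by
      calc v * (2 * u) = 2 * (v * u) := by ring
        _ = k * (2 * f) := by rw [hphi]; ring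
    have h3 : k * (v * t) ≤ k * (2 * f) := by
      calc k * (v * t) = v * (k * t) := by ring
        _ ≤ k * (2 * f) := by rw [← h2]; exact h1
    have h4 := Nat.le_of_mul_le_mul_left h3 (by omega)
    omega
  have hct : c * t ^ 2 ≤ 4 * k := by
    have h1 : k * (c * t ^ 2) ≤ k * (4 * k) := by
      calc k * (c * t ^ 2) = (k * c) * t ^ 2 := by ring
        _ = (v * t) ^ 2 := by rw [← hvc]; ring
        _ ≤ (2 * k) ^ 2 := Nat.pow_le_pow_left hvt 2
        _ = k * (4 * k) := by ring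
    exact Nat.le_of_mul_le_mul_left h1 (by omega)
  have hct2 : c * t ≤ 4 * (t + 2) := by
    have h1 : t * (c * t) ≤ t * (4 * (t + 2)) := by
      calc t * (c * t) = c * t ^ 2 := by ring
        _ ≤ 4 * k := hct
        _ ≤ 4 * (t ^ 2 + 2 * t) := Nat.mul_le_mul_left 4 hkt
        _ = t * (4 * (t + 2)) := by ring
    exact Nat.le_of_mul_le_mul_left h1 (by omega)
  have hc12 : c < 13 := by
    by_contra hcon
    push Not at hcon
    have : 13 * t ≤ c * t := Nat.mul_le_mul_right t hcon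
    omega
  -- divisibility
  have hdvd : (v + 1) ∣ c ^ 2 + 1 := by
    have h1 : (v + 1) ∣ c * (t * (v + 1)) := Dvd.intro_left (c * t) (by ring)
    have h2 : c * (t * (v + 1)) = v ^ 2 + c ^ 2 := by
      rw [htv, hvc]; ring
    rw [h2] at h1
    have h3 : (v + 1) ∣ (v + 1) * (v - 1) := dvd_mul_right _ _
    have h4 : v ^ 2 + c ^ 2 = (v + 1) * (v - 1) + (c ^ 2 + 1) := by
      obtain ⟨w, rfl⟩ : ∃ w, v = w + 1 := ⟨v - 1, by omega⟩
      simp only [Nat.add_sub_cancel]
      ring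
    rw [h4] at h1
    exact (Nat.dvd_add_right h3).mp h1
  have hv146 : v < 146 := by
    have h1 := Nat.le_of_dvd (by positivity) hdvd
    have h2 : c ^ 2 ≤ 12 ^ 2 := Nat.pow_le_pow_left (by omega) 2
    omega
  have hkv : v ^ 2 / c = k := by rw [hvc]; exact Nat.mul_div_cancel k hc0
  have htq : (k + c) / (v + 1) = t := by
    rw [← htv]; exact Nat.mul_div_cancel t (by omega)
  have hfin := finite_check c hc12 v hv146
  rw [hkv, htq] at hfin
  exact hfin ⟨hc0, Nat.mod_eq_zero_of_dvd hdvd, hk3,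
    by rw [hvc]; exact Nat.mul_mod_left k c, hkt⟩

/-- Both exponents at least `2`. -/
lemma case_both {k p q a b : ℕ} (hp : p.Prime) (hlt : p < q)
    (hn : k ^ 2 + 1 = p ^ (a + 2) * q ^ (b + 2))
    (hφ : p ^ (a + 1) * q ^ (b + 1) * ((p - 1) * (q - 1)) = k * φ (k + 1)) : False := by
  obtain ⟨v, rfl⟩ : ∃ v, p = v + 1 := ⟨p - 1, by have := hp.pos; omega⟩
  obtain ⟨u, rfl⟩ : ∃ u, q = u + 1 := ⟨q - 1, by omega⟩
  have hv1 : 1 ≤ v := by have := hp.two_le; omega
  have huv : v < u := by omega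
  simp only [Nat.add_sub_cancel] at hφ
  set w := (v + 1) ^ (a + 1) * (u + 1) ^ (b + 1) with hw
  have hn' : k ^ 2 + 1 = w * ((v + 1) * (u + 1)) := by rw [hn, hw]; ring
  have hpq : (v + 1) * (u + 1) ≤ w := by
    rw [hw]
    exact Nat.mul_le_mul (Nat.le_self_pow (by omega) _) (Nat.le_self_pow (by omega) _)
  have hw1 : 1 ≤ w := le_trans (Nat.mul_pos (by omega) (by omega)) hpq
  obtain ⟨t, c, hk, ht1, hvt, hb, hc0, hcf, hc⟩ := basic k v u w _ rfl hv1 huv hw1 hn' hφ
  have hwd := w_dvd hn' hφ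
  have hwk : w ≤ k := by
    have h1 : 0 < φ (k + 1) := Nat.totient_pos.mpr (by omega)
    have := Nat.le_of_dvd h1 hwd
    omega
  have hvw : v ^ 2 ≤ w := by
    refine le_trans ?_ hpq
    rw [sq]
    exact Nat.mul_le_mul (by omega) (by omega)
  have hsmall := w_small hv1 hc0 hn' hc hwk hvw
  have hlt3 : w < (v + 1) ^ 3 := by
    calc w < v * (v + 1) ^ 2 := hsmall
      _ ≤ (v + 1) * (v + 1) ^ 2 := Nat.mul_le_mul_right _ (by omega)
      _ = (v + 1) ^ 3 := by ring
  rcases Nat.eq_zero_or_pos a with ha | ha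
  · rcases Nat.eq_zero_or_pos b with hb0 | hb0
    · subst ha; subst hb0
      have h1 : k ^ 2 + 1 = ((v + 1) * (u + 1)) ^ 2 := by rw [hn]; ring
      have h2 : k < (v + 1) * (u + 1) := by
        by_contra hcon
        push Not at hcon
        have := Nat.pow_le_pow_left hcon 2
        omega
      have h3 : (k + 1) ^ 2 ≤ ((v + 1) * (u + 1)) ^ 2 := Nat.pow_le_pow_left h2 2
      have h4 : (k + 1) ^ 2 = k ^ 2 + 2 * k + 1 := by ring
      omega
    · have h1 : (v + 1) ^ 3 ≤ w := by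
        calc (v + 1) ^ 3 = (v + 1) ^ 1 * (v + 1) ^ 2 := by ring
          _ ≤ (v + 1) ^ (a + 1) * (u + 1) ^ (b + 1) := by
              apply Nat.mul_le_mul
              · exact Nat.pow_le_pow_right (by omega) (by omega)
              · exact (Nat.pow_le_pow_left (by omega) 2).trans
                  (Nat.pow_le_pow_right (by omega) (by omega))
      omega
  · have h1 : (v + 1) ^ 3 ≤ w := by
      calc (v + 1) ^ 3 = (v + 1) ^ 2 * (v + 1) ^ 1 := by ring
        _ ≤ (v + 1) ^ (a + 1) * (u + 1) ^ (b + 1) := by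
            apply Nat.mul_le_mul
            · exact Nat.pow_le_pow_right (by omega) (by omega)
            · exact (Nat.pow_le_pow_left (by omega) 1).trans
                (Nat.pow_le_pow_right (by omega) (by omega))
    omega

/-- `k ^ 2 + 1 = p q ^ b` with `b ≥ 2`. -/
lemma case_q {k p q b : ℕ} (hp : p.Prime) (hq : q.Prime) (hlt : p < q)
    (hn : k ^ 2 + 1 = p * q ^ (b + 2))
    (hφ : q ^ (b + 1) * ((p - 1) * (q - 1)) = k * φ (k + 1)) : False := by
  obtain ⟨v, rfl⟩ : ∃ v, p = v + 1 := ⟨p - 1, by have := hp.pos; omega⟩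
  obtain ⟨u, rfl⟩ : ∃ u, q = u + 1 := ⟨q - 1, by omega⟩
  have hv1 : 1 ≤ v := by have := hp.two_le; omega
  have huv : v < u := by omega
  simp only [Nat.add_sub_cancel] at hφ
  set w := (u + 1) ^ (b + 1) with hw
  have hn' : k ^ 2 + 1 = w * ((v + 1) * (u + 1)) := by rw [hn, hw]; ring
  have hqw : u + 1 ≤ w := Nat.le_self_pow (by omega) _
  have hw1 : 1 ≤ w := by omega
  obtain ⟨t, c, hk, ht1, hvt, hb, hc0, hcf, hc⟩ := basic k v u w _ rfl hv1 huv hw1 hn' hφ
  have hwd := w_dvd hn' hφ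
  rcases Nat.lt_or_ge v 2 with h2 | h2
  · -- `p = 2`
    have hv : v = 1 := by omega
    subst hv
    have hcop : Nat.Coprime k w := by
      have h1 : Nat.gcd k w ∣ k ^ 2 + 1 := by
        rw [hn']; exact (Nat.gcd_dvd_right k w).trans (dvd_mul_right _ _)
      have h2 : Nat.gcd k w ∣ k ^ 2 := (Nat.gcd_dvd_left k w).trans (dvd_pow_self k two_ne_zero)
      exact Nat.dvd_one.mp ((Nat.dvd_add_right h2).mp h1)
    have h3 : k ∣ 1 * u := hcop.dvd_of_dvd_mul_left ⟨_, hφ⟩
    have h4 : k ≤ 1 * u := Nat.le_of_dvd (by omega) h3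
    have h5 : k ^ 2 ≤ u ^ 2 := Nat.pow_le_pow_left (by omega) 2
    have h6 : (u + 1) * (u + 1) ≤ w * ((1 + 1) * (u + 1)) :=
      Nat.mul_le_mul hqw (Nat.le_mul_of_pos_left _ (by omega))
    have h7 : (u + 1) * (u + 1) = u ^ 2 + 2 * u + 1 := by ring
    omega
  · have hkb : v * w ≤ k := k_big rfl hk ht1 hvt hb h2 hq (by omega)
      (by rw [hn']; exact (dvd_mul_left _ _).mul_left _) (by omega : b + 1 ≠ 0) hw hwd
    have h3 : (v * w) ^ 2 ≤ k ^ 2 := Nat.pow_le_pow_left hkb 2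
    have h4 : k ^ 2 + 1 ≤ w ^ 2 * (v + 1) := by
      calc k ^ 2 + 1 = w * ((v + 1) * (u + 1)) := hn'
        _ ≤ w * ((v + 1) * w) := by
            apply Nat.mul_le_mul_left
            exact Nat.mul_le_mul_left _ hqw
        _ = w ^ 2 * (v + 1) := by ring
    have h5 : w ^ 2 * v ^ 2 < w ^ 2 * (v + 1) := by
      have : (v * w) ^ 2 = w ^ 2 * v ^ 2 := by ring
      omega
    have h6 : v ^ 2 < v + 1 := Nat.lt_of_mul_lt_mul_left h5
    nlinarith

/-- `k ^ 2 + 1 = p ^ a q` with `a ≥ 2`. -/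
lemma case_p {k p q a : ℕ} (hp : p.Prime) (hlt : p < q)
    (hn : k ^ 2 + 1 = p ^ (a + 2) * q)
    (hφ : p ^ (a + 1) * ((p - 1) * (q - 1)) = k * φ (k + 1)) : False := by
  have hp2 : p ≠ 2 := by
    rintro rfl
    have h1 : k ^ 2 + 1 = 4 * (2 ^ a * q) := by rw [hn]; ring
    have h2 : (k ^ 2) % 4 = 0 ∨ (k ^ 2) % 4 = 1 := by
      rcases Nat.even_or_odd k with ⟨r, hr⟩ | ⟨r, hr⟩
      · left; subst hr
        have : (r + r) ^ 2 = 4 * (r ^ 2) := by ring
        omega
      · right; subst hr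
        have : (2 * r + 1) ^ 2 = 4 * (r ^ 2 + r) + 1 := by ring
        omega
    omega
  obtain ⟨v, rfl⟩ : ∃ v, p = v + 1 := ⟨p - 1, by have := hp.pos; omega⟩
  obtain ⟨u, rfl⟩ : ∃ u, q = u + 1 := ⟨q - 1, by omega⟩
  have hv2 : 2 ≤ v := by have := hp.two_le; omega
  have hv1 : 1 ≤ v := by omega
  have huv : v < u := by omega
  simp only [Nat.add_sub_cancel] at hφ
  set w := (v + 1) ^ (a + 1) with hw
  have hn' : k ^ 2 + 1 = w * ((v + 1) * (u + 1)) := by rw [hn, hw]; ring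
  have hpw : v + 1 ≤ w := Nat.le_self_pow (by omega) _
  have hw1 : 1 ≤ w := by omega
  obtain ⟨t, c, hk, ht1, hvt, hb, hc0, hcf, hc⟩ := basic k v u w _ rfl hv1 huv hw1 hn' hφ
  have hwd := w_dvd hn' hφ
  have hkb : v * w ≤ k := k_big rfl hk ht1 hvt hb hv2 hp (by omega)
    (by rw [hn']; exact (dvd_mul_right _ _).mul_left _) (by omega : a + 1 ≠ 0) hw hwd
  have htiny := w_tiny hv1 hc0 hn' hc hkb
  rcases Nat.eq_zero_or_pos a with ha | ha
  · subst ha
    have hwv : w = v + 1 := by rw [hw]; simp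
    rw [hwv] at hc hkb
    -- `c ≤ v`
    have hcv : c ≤ v := by
      by_contra hcon
      push Not at hcon
      have h1 : v * (v + 1) * (v + 1) ≤ k * c := Nat.mul_le_mul hkb hcon
      have h2 : (v + 1) * (v * (v + 1)) = v * (v + 1) * (v + 1) := by ring
      omega
    have hdv := dvd_sum hn' (by rw [hwv]; exact hc : w * (v * (v + 1)) = k * c + v)
    rw [hwv] at hdv
    obtain ⟨e, he⟩ := hdv
    have he1 : e = 1 := by
      have h1 : c ^ 2 ≤ v ^ 2 := Nat.pow_le_pow_left hcv 2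
      have h2 : 0 < c ^ 2 := by positivity
      have h3 : (v + 1) * (v + 1) = v ^ 2 + 2 * v + 1 := by ring
      rcases Nat.lt_or_ge e 2 with h4 | h4
      · rcases Nat.eq_zero_or_pos e with h5 | h5
        · subst h5; omega
        · omega
      · exfalso
        have h5 : (v + 1) * (v + 1) * 2 ≤ (v + 1) * (v + 1) * e := Nat.mul_le_mul_left _ h4
        omega
    rw [he1] at he
    have hc2 : c ^ 2 = 2 * v + 1 := by
      have h3 : (v + 1) * (v + 1) * 1 = v ^ 2 + 2 * v + 1 := by ring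
      omega
    have hkc : (v + 1) * t = k + c := by
      have : (v + 1) * t = v * t + t := by ring
      omega
    have hct : (v + 1) * (c * t) = (v + 1) * (v ^ 2 + v + 1) := by
      have h1 : (v + 1) * (c * t) = c * ((v + 1) * t) := by ring
      have h2 : c * (k + c) = k * c + c ^ 2 := by ring
      have h3 : (v + 1) * (v * (v + 1)) = v * (v ^ 2 + 2 * v) + v := by ring
      have h4 : (v + 1) * (v ^ 2 + v + 1) = v * (v ^ 2 + 2 * v) + 2 * v + 1 := by ring
      rw [h1, hkc, h2, h4]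
      omega
    have hct' : c * t = v ^ 2 + v + 1 := Nat.eq_of_mul_eq_mul_left (by omega) hct
    have hc3 : c ∣ 3 := by
      have h1 : 4 * (c * t) = c ^ 4 + 3 := by
        have h2 : c ^ 4 = (c ^ 2) ^ 2 := by ring
        rw [hct', h2, hc2]; ring
      have h2 : c ∣ c ^ 4 + 3 := by
        rw [← h1]; exact (dvd_mul_right c t).mul_left 4
      exact (Nat.dvd_add_right (dvd_pow_self c (by norm_num))).mp h2
    rcases (Nat.dvd_prime Nat.prime_three).mp hc3 with h | h
    · subst h; omega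
    · subst h
      have hv4 : v = 4 := by omega
      subst hv4
      have ht7 : t = 7 := by omega
      subst ht7
      have hk32 : k = 32 := by omega
      subst hk32
      have : φ (32 + 1) = 20 := by decide
      omega
  · have h1 : (v + 1) ^ 2 ≤ w := Nat.pow_le_pow_right (by omega) (by omega)
    have h2 : (v + 1) * (v + 1) ^ 2 ≤ (v + 1) * w := Nat.mul_le_mul_left _ h1
    have h3 : v ^ 2 ≤ (v + 1) ^ 2 := Nat.pow_le_pow_left (by omega) 2
    have h4 : 2 * (v + 1) ^ 2 ≤ (v + 1) * (v + 1) ^ 2 := Nat.mul_le_mul_right _ (by omega)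
    omega

/-- Two distinct prime factors. -/
lemma two {k p q a b : ℕ} (hp : p.Prime) (hq : q.Prime) (hlt : p < q) (ha : a ≠ 0) (hb : b ≠ 0)
    (hn : k ^ 2 + 1 = p ^ a * q ^ b) (hk : φ (k ^ 2 + 1) = k * φ (k + 1)) : k = 8 := by
  have hcop : Nat.Coprime (p ^ a) (q ^ b) :=
    Nat.Coprime.pow a b ((Nat.coprime_primes hp hq).mpr (by omega))
  have hφ : p ^ (a - 1) * (p - 1) * (q ^ (b - 1) * (q - 1)) = k * φ (k + 1) := by
    rw [← hk, hn, Nat.totient_mul hcop, Nat.totient_prime_pow hp (Nat.pos_of_ne_zero ha),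
      Nat.totient_prime_pow hq (Nat.pos_of_ne_zero hb)]
  obtain ⟨a, rfl⟩ : ∃ a', a = a' + 1 := ⟨a - 1, by omega⟩
  obtain ⟨b, rfl⟩ : ∃ b', b = b' + 1 := ⟨b - 1, by omega⟩
  simp only [Nat.add_sub_cancel] at hφ
  rcases Nat.eq_zero_or_pos a with h0 | h0 <;> rcases Nat.eq_zero_or_pos b with h1 | h1
  · subst h0; subst h1
    exact aux k p q hp hq hlt (by rw [hn]; ring) hk
  · subst h0
    obtain ⟨b, rfl⟩ : ∃ b', b = b' + 1 := ⟨b - 1, by omega⟩
    exact (case_q (b := b) hp hq hlt (by rw [hn]; ring) (by rw [← hφ]; ring)).elim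
  · subst h1
    obtain ⟨a, rfl⟩ : ∃ a', a = a' + 1 := ⟨a - 1, by omega⟩
    exact (case_p (a := a) hp hlt (by rw [hn]; ring) (by rw [← hφ]; ring)).elim
  · obtain ⟨a, rfl⟩ : ∃ a', a = a' + 1 := ⟨a - 1, by omega⟩
    obtain ⟨b, rfl⟩ : ∃ b', b = b' + 1 := ⟨b - 1, by omega⟩
    exact (case_both (a := a) (b := b) hp hlt hn (by rw [← hφ]; ring)).elim

/-- **At most two distinct prime factors.** If `φ(k²+1) = k φ(k+1)`, `k ≠ 8` and `k²+1` has at
most two distinct prime factors, then `k+1` and `k²+1` are prime. -/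
theorem main (k : ℕ) (hk : φ (k ^ 2 + 1) = k * φ (k + 1)) (h8 : k ≠ 8)
    (h2 : (k ^ 2 + 1).primeFactors.card ≤ 2) : (k + 1).Prime ∧ (k ^ 2 + 1).Prime := by
  have hk0 : 0 < k := by
    rcases Nat.eq_zero_or_pos k with h | h
    · subst h; simp at hk
    · exact h
  have hne : k ^ 2 + 1 ≠ 0 := by omega
  have hprod := (Nat.prod_factorization_pow_eq_self hne).symm
  rw [Finsupp.prod, Nat.support_factorization] at hprod
  have hprime : (k ^ 2 + 1).Prime := by
    have hcases : (k ^ 2 + 1).primeFactors.card = 0 ∨ (k ^ 2 + 1).primeFactors.card = 1 ∨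
        (k ^ 2 + 1).primeFactors.card = 2 := by omega
    rcases hcases with h | h | h
    · rw [Finset.card_eq_zero, Nat.primeFactors_eq_empty] at h
      have := pow_pos hk0 2
      omega
    · obtain ⟨p, hp⟩ := Finset.card_eq_one.mp h
      rw [hp, Finset.prod_singleton] at hprod
      have hpp : p.Prime := Nat.prime_of_mem_primeFactors (by rw [hp]; simp)
      set a := (k ^ 2 + 1).factorization p with ha
      have ha0 : a ≠ 0 := by
        rintro h0
        rw [h0, pow_zero] at hprod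
        have := pow_pos hk0 2
        omega
      rcases Nat.lt_or_ge a 2 with h3 | h3
      · have : a = 1 := by omega
        rw [this, pow_one] at hprod
        rw [hprod]; exact hpp
      · exfalso
        have hφ : p ^ (a - 1) * (p - 1) = k * φ (k + 1) := by
          rw [← hk, hprod, Nat.totient_prime_pow hpp (by omega)]
        have hcop : Nat.Coprime k (p ^ (a - 1)) := by
          apply Nat.Coprime.pow_right
          rw [Nat.coprime_comm, Nat.Prime.coprime_iff_not_dvd hpp]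
          intro hd
          have hdn : p ∣ k ^ 2 + 1 := by rw [hprod]; exact dvd_pow_self p ha0
          have : p ∣ 1 := (Nat.dvd_add_right (hd.trans (dvd_pow_self k two_ne_zero))).mp hdn
          exact hpp.one_lt.ne' (Nat.dvd_one.mp this)
        have h4 : k ∣ p - 1 := hcop.dvd_of_dvd_mul_left ⟨_, hφ⟩
        have h5 : k ≤ p - 1 := Nat.le_of_dvd (by have := hpp.one_lt; omega) h4
        have h6 : (k + 1) ^ 2 ≤ p ^ 2 := Nat.pow_le_pow_left (by have := hpp.one_lt; omega) 2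
        have h7 : p ^ 2 ≤ p ^ a := Nat.pow_le_pow_right hpp.pos h3
        have h8 : (k + 1) ^ 2 = k ^ 2 + 2 * k + 1 := by ring
        omega
    · obtain ⟨p, q, hpq, hS⟩ := Finset.card_eq_two.mp h
      rw [hS, Finset.prod_pair hpq] at hprod
      have hp : p ∈ (k ^ 2 + 1).primeFactors := by rw [hS]; simp
      have hq : q ∈ (k ^ 2 + 1).primeFactors := by rw [hS]; simp
      have hpp := Nat.prime_of_mem_primeFactors hp
      have hqp := Nat.prime_of_mem_primeFactors hq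
      have ha : (k ^ 2 + 1).factorization p ≠ 0 := by
        rw [← Finsupp.mem_support_iff, Nat.support_factorization]; exact hp
      have hb : (k ^ 2 + 1).factorization q ≠ 0 := by
        rw [← Finsupp.mem_support_iff, Nat.support_factorization]; exact hq
      exfalso
      rcases lt_or_gt_of_ne hpq with hlt | hlt
      · exact h8 (two hpp hqp hlt ha hb hprod hk)
      · exact h8 (two hqp hpp hlt hb ha (by rw [Nat.mul_comm] at hprod; exact hprod) hk)
  refine ⟨?_, hprime⟩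
  rw [Nat.totient_prime hprime, Nat.add_sub_cancel, sq] at hk
  have h3 : k = φ (k + 1) := Nat.eq_of_mul_eq_mul_left hk0 hk
  exact (Nat.totient_eq_iff_prime (by omega)).mp (by rw [← h3]; simp)

end Pool.Agent.Lib.MP_9310ca_nt.TwoPrimes
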